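import Pool.Agent.Y8.Stm7

/-!
Slow singular points in a short time interval (helper46, job 400 of helper8).
-/

set_option autoImplicit false

open MeasureTheory Set Metric
open scoped ContDiff ENNReal

namespace Pool.Agent.Y46.NS

open H459R3.NS W221.NS Pool.Agent.Y8

lemma vol_ball (x : V) {r : ℝ} (hr : 0 < r) :
    volume (ball x r) = ENNReal.ofReal ((2 * r) ^ 3) := by
  rw [Real.volume_pi_ball x hr]
  simp [Fintype.card_fin]

lemma rr_pos (n : ℕ) : 0 < rr n := by unfold rr; positivity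

lemma rr_le_one (n : ℕ) : rr n ≤ 1 := by
  unfold rr
  exact pow_le_one₀ (by norm_num) (by norm_num)

lemma rr_inv (n : ℕ) : (rr n)⁻¹ = 2 ^ n := by
  unfold rr
  rw [one_div, inv_pow, inv_inv]

lemma rr_add_sq {n i : ℕ} (hi : 3 ≤ i) : rr (n + i) ^ 2 ≤ rr n ^ 2 / 64 := by
  unfold rr
  rw [pow_add, mul_pow]
  have h1 : ((1 / 2 : ℝ) ^ i) ≤ (1 / 2) ^ 3 :=
    pow_le_pow_of_le_one (by norm_num) (by norm_num) hi
  have h2 : (0 : ℝ) ≤ (1 / 2) ^ i := by positivity
  have h3 : ((1 / 2 : ℝ) ^ i) ^ 2 ≤ 1 / 64 := by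
    calc ((1 / 2 : ℝ) ^ i) ^ 2 ≤ ((1 / 2) ^ 3) ^ 2 := pow_le_pow_left₀ h2 h1 2
      _ = 1 / 64 := by norm_num
  have h4 : (0 : ℝ) ≤ ((1 / 2 : ℝ) ^ n) ^ 2 := by positivity
  nlinarith

/-- the dissipation in a part of the time interval -/
lemma enst_part {T E D : ℝ} {G : Set ℝ} {u : ℝ → V → V} {p : ℝ → V → ℝ} (h : Turb 1 T E D G u p)
    {a b : ℝ} (ha : 0 ≤ a) (hb : b ≤ T) : ∫ t in Ioo a b, enstrophy (u t) ≤ D := by
  refine le_trans ?_ h.enst_le
  refine setIntegral_mono_set h.enst_int (Filter.Eventually.of_forall fun t => enst_nn _) ?_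
  exact (ae_restrict_iff' measurableSet_Ioo).1 (aeT h ha hb)

lemma D_nonneg {T E D : ℝ} {G : Set ℝ} {u : ℝ → V → V} {p : ℝ → V → ℝ} (h : Turb 1 T E D G u p) :
    0 ≤ D := by
  refine le_trans ?_ h.enst_le
  exact integral_nonneg fun t => enst_nn _

/-- a flow map is continuous in the label -/
lemma X_cont {T r B C : ℝ} {G : Set ℝ} {u : ℝ → V → V} {p : ℝ → V → ℝ} {t₀ : ℝ} {X Y : ℝ → V → V}
    (h : WFl T r B C G u p t₀ X Y) {t : ℝ} (ht : t ∈ Ioo 0 T) : Continuous (X t) := by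
  have h1 : ContinuousOn (fun y : V => X t y) univ :=
    ContinuousOn.comp (g := fun z : ℝ × V => X z.1 z.2) (f := fun y : V => ((t, y) : ℝ × V))
      h.cont (by fun_prop) (fun y _ => ⟨ht, mem_univ _⟩)
  exact continuousOn_univ.1 h1

theorem t_SLOW (hcrit : S_CRIT3) (hmark : S_WMARK3) : S_SLOW := by
  obtain ⟨ε, hε, hcrit⟩ := hcrit
  obtain ⟨C, hC, hmark⟩ := hmark
  intro R₀
  refine ⟨64 * C * (3 + |R₀|) ^ 3 / ε, by positivity, ?_⟩
  intro T E D G u p h n i α β hi hβα hα hβ X Y B C' hB hBR hfl S hSep hS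
  have hD := D_nonneg h
  have hr := rr_pos n
  have hr1 := rr_le_one n
  have hri := rr_inv n
  have hrsq := rr_add_sq (n := n) hi
  set r := rr n with hrdef
  rcases S.eq_empty_or_nonempty with rfl | hne
  · simp only [Finset.card_empty, Nat.cast_zero]
    positivity
  obtain ⟨z0, hz0⟩ := hne
  have hαβ : α ≤ β := (hS z0 hz0).1.1.trans (hS z0 hz0).1.2
  have hr2 : 0 < r ^ 2 := by positivity
  set s := β + r ^ 2 / 32 with hs
  have hs1 : r ^ 2 < s := by linarith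
  have hs2 : s < T := by linarith
  have hlab : β ∈ Icc (s - r ^ 2) s := ⟨by linarith, by linarith⟩
  have htime : ∀ z ∈ S, z.1 ∈ Ioo (s - r ^ 2 / 16) s := by
    intro z hz
    have h1 := (hS z hz).1
    exact ⟨by linarith [h1.1], by linarith [h1.2]⟩
  have htT : ∀ z ∈ S, z.1 ∈ Ioo 0 T := by
    intro z hz
    have h1 := (hS z hz).1
    exact ⟨by linarith [h1.1], by linarith [h1.2]⟩
  set Q : Set V := {y ∈ ball (0 : V) 2 | ε * r ≤ ∫ t in Ioo (s - r ^ 2) s, B2 (X t y) (8 * r) (u t)}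
    with hQ
  -- the sets of labels
  set L : ℝ × V → Set V := fun z => (X z.1) ⁻¹' (ball z.2 (r / 8)) with hL
  have hLmem : ∀ z y, y ∈ L z ↔ ‖X z.1 y - z.2‖ < r / 8 := by
    intro z y
    rw [hL]
    simp only [mem_preimage, mem_ball, dist_eq_norm]
  have hLsub : ∀ z ∈ S, L z ⊆ ball z.2 (r / 4) := by
    intro z hz y hy
    have h1 := (hLmem z y).1 hy
    have h2 := (hS z hz).2.2.2 y h1
    rw [mem_ball, dist_eq_norm]
    calc ‖y - z.2‖ = ‖(y - X z.1 y) + (X z.1 y - z.2)‖ := by rw [sub_add_sub_cancel]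
      _ ≤ ‖y - X z.1 y‖ + ‖X z.1 y - z.2‖ := norm_add_le _ _
      _ < r / 8 + r / 8 := add_lt_add_of_le_of_lt h2 h1
      _ = r / 4 := by ring
  have hLQ : ∀ z ∈ S, L z ⊆ Q := by
    intro z hz y hy
    obtain ⟨h1, h2, h3, h4⟩ := hS z hz
    have h5 := hLsub z hz hy
    refine ⟨?_, ?_⟩
    · rw [mem_ball, dist_zero_right]
      rw [mem_ball, dist_eq_norm] at h5
      have h6 : ‖z.2‖ ≤ 1 := by
        rw [pi_norm_le_iff_of_nonneg zero_le_one]
        intro j
        have h7 := h2.1 j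
        have h8 := h2.2 j
        rw [Real.norm_eq_abs, abs_le]
        simp only [Pi.zero_apply, Pi.one_apply] at h7 h8
        exact ⟨by linarith, h8⟩
      calc ‖y‖ = ‖(y - z.2) + z.2‖ := by rw [sub_add_cancel]
        _ ≤ ‖y - z.2‖ + ‖z.2‖ := norm_add_le _ _
        _ < 2 := by linarith
    · have h6 := (hLmem z y).1 hy
      refine hcrit T E D G u p h r s hr hr1 hs1 hs2 (fun t => X t y) (fun t => Y t y) B C'
        (hfl.path y) z.1 (htime z hz) z.2 ?_ h3
      rw [mem_ball, dist_eq_norm, norm_sub_rev]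
      linarith
  have hLmeas : ∀ z ∈ S, MeasurableSet (L z) := fun z hz =>
    (X_cont hfl (htT z hz)).measurable measurableSet_ball
  have hLvol : ∀ z ∈ S, volume (L z) = ENNReal.ofReal ((r / 4) ^ 3) := by
    intro z hz
    have h1 := Measure.map_apply (μ := (volume : Measure V))
      (X_cont hfl (htT z hz)).measurable (measurableSet_ball (x := z.2) (ε := r / 8))
    rw [hfl.meas z.1 (htT z hz)] at h1
    rw [hL]
    simp only
    rw [← h1, vol_ball _ (by positivity)]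
    congr 2
    ring
  have hdisj : (S : Set (ℝ × V)).PairwiseDisjoint L := by
    intro z hz w hw hzw
    have h1 := hSep z hz w hw hzw
    have h2 : |z.1 - w.1| < r ^ 2 := by
      have h3 := (hS z hz).1
      have h4 := (hS w hw).1
      rw [abs_lt]
      constructor
      · linarith [h3.1, h3.2, h4.1, h4.2]
      · linarith [h3.1, h3.2, h4.1, h4.2]
    have h5 : r ≤ ‖z.2 - w.2‖ := by
      rcases h1 with h1 | h1
      · exact absurd h1 (not_le.2 h2)
      · exact h1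
    rw [Function.onFun, Set.disjoint_left]
    intro y hy hy'
    have h6 := hLsub z hz hy
    have h7 := hLsub w hw hy'
    rw [mem_ball, dist_eq_norm] at h6 h7
    have h8 : ‖z.2 - w.2‖ ≤ ‖y - w.2‖ + ‖y - z.2‖ := by
      calc ‖z.2 - w.2‖ = ‖(y - w.2) - (y - z.2)‖ := by rw [sub_sub_sub_cancel_left]
        _ ≤ ‖y - w.2‖ + ‖y - z.2‖ := norm_sub_le _ _
    linarith
  have hmk := hmark T E D G u p h r s β hr hr1 hs1 hs2 hlab X Y B C' hB hfl 2 ε (by norm_num) hε
  rw [← hQ] at hmk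
  have hsum : ∑ z ∈ S, volume (L z) ≤ volume Q := by
    rw [← measure_biUnion_finset hdisj hLmeas]
    exact measure_mono (iUnion₂_subset hLQ)
  have hsum2 : ENNReal.ofReal (S.card * (r / 4) ^ 3) ≤ volume Q := by
    refine le_trans (le_of_eq ?_) hsum
    rw [Finset.sum_congr rfl hLvol, Finset.sum_const, nsmul_eq_mul, ENNReal.ofReal_mul
      (Nat.cast_nonneg _), ENNReal.ofReal_natCast]
  have hI : ∫ t in Ioo (s - r ^ 2) s, enstrophy (u t) ≤ D :=
    enst_part h (by linarith) hs2.le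
  have hI0 : 0 ≤ ∫ t in Ioo (s - r ^ 2) s, enstrophy (u t) :=
    integral_nonneg fun t => enst_nn _
  have h3R : 2 + B * r ^ 2 + 1 ≤ 3 + |R₀| := by
    have := le_abs_self R₀
    linarith
  have h3R0 : 0 ≤ 2 + B * r ^ 2 + 1 := by positivity
  have hfin : (S.card : ℝ) * (r / 4) ^ 3 ≤ C * (3 + |R₀|) ^ 3 * r ^ 2 * D / ε := by
    have h1 := hsum2.trans hmk
    have h2 : C * (2 + B * r ^ 2 + 1) ^ 3 * r ^ 2 *
        (∫ t in Ioo (s - r ^ 2) s, enstrophy (u t)) / ε ≤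
        C * (3 + |R₀|) ^ 3 * r ^ 2 * D / ε := by
      gcongr
    have h4 : 0 ≤ C * (3 + |R₀|) ^ 3 * r ^ 2 * D / ε := by positivity
    exact (ENNReal.ofReal_le_ofReal_iff h4).1 (h1.trans (ENNReal.ofReal_le_ofReal h2))
  rw [← hri]
  have e1 : (S.card : ℝ) = (S.card * (r / 4) ^ 3) * (64 * (r⁻¹) ^ 3) := by
    field_simp
    norm_num
  have e2 : 64 * C * (3 + |R₀|) ^ 3 / ε * D * r⁻¹ =
      (C * (3 + |R₀|) ^ 3 * r ^ 2 * D / ε) * (64 * (r⁻¹) ^ 3) := by
    field_simp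
  rw [e1, e2]
  exact mul_le_mul_of_nonneg_right hfin (by positivity)

end Pool.Agent.Y46.NS
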